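import Pool.Agent.H30.VR.Targets

/-!
# MP_d32443_co, board ver_modules: row BFS
-/

set_option autoImplicit false

namespace Pool.Agent.H14.VR

open Finset Pool.Agent.H48.CE Pool.Agent.H30.VR

section

variable {V : Type} {H : SimpleGraph V} {r : V}

theorem dist_succ_le {u v : V} (hu : H.Reachable r u) (h : H.Adj u v) :
    H.dist r v ≤ H.dist r u + 1 := by
  obtain ⟨w, hw⟩ := hu.exists_walk_length_eq_dist
  have h1 := SimpleGraph.dist_le (w.concat h)
  rwa [SimpleGraph.Walk.length_concat, hw] at h1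

theorem reach_adj {u v : V} (hu : H.Reachable r u) (h : H.Adj u v) : H.Reachable r v :=
  hu.trans h.reachable

theorem dist_lt_card [Fintype V] {v : V} (hv : H.Reachable r v) :
    H.dist r v < Fintype.card V := by
  classical
  obtain ⟨w, hw, hw'⟩ := hv.exists_path_of_dist
  rw [← hw']
  exact hw.length_lt

/-- A vertex has a parent in the previous layer. -/
theorem exists_par {v : V} (hv : H.Reachable r v) (h0 : 0 < H.dist r v) :
    ∃ u, H.Adj v u ∧ H.Reachable r u ∧ H.dist r u + 1 = H.dist r v := by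
  obtain ⟨w, hw⟩ := hv.exists_walk_length_eq_dist
  have hlen : w.reverse.length = H.dist r v := by rw [SimpleGraph.Walk.length_reverse, hw]
  cases hc : w.reverse with
  | nil =>
    rw [hc, SimpleGraph.Walk.length_nil] at hlen
    omega
  | cons h p =>
    rename_i u
    rw [hc, SimpleGraph.Walk.length_cons] at hlen
    have h1 := SimpleGraph.dist_le p.reverse
    rw [SimpleGraph.Walk.length_reverse] at h1
    have hu : H.Reachable r u := ⟨p.reverse⟩
    have h2 := dist_succ_le hu h.symm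
    exact ⟨u, h, hu, by omega⟩

variable (H r)

open Classical in
/-- The parent. -/
noncomputable def par (v : V) : V :=
  if h : ∃ u, H.Adj v u ∧ H.Reachable r u ∧ H.dist r u + 1 = H.dist r v then h.choose else v

/-- The layer number `i`. -/
def Lay (i : ℕ) (v : V) : Prop := H.Reachable r v ∧ H.dist r v = i

variable {H r}

theorem par_spec {v : V} {i : ℕ} (h : Lay H r (i + 1) v) :
    H.Adj v (par H r v) ∧ Lay H r i (par H r v) := by
  have hex := exists_par h.1 (by rw [h.2]; omega)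
  have h1 := hex.choose_spec
  rw [par, dif_pos hex]
  refine ⟨h1.1, h1.2.1, ?_⟩
  have h2 := h1.2.2
  have h3 := h.2
  omega

theorem anc_lay {v : V} {i : ℕ} (h : Lay H r i v) (t : ℕ) (ht : t ≤ i) :
    Lay H r (i - t) ((par H r)^[t] v) := by
  induction t with
  | zero => simpa using h
  | succ t ih =>
    have h1 := ih (by omega)
    have h2 : i - t = (i - (t + 1)) + 1 := by omega
    rw [h2] at h1
    rw [Function.iterate_succ_apply']
    exact (par_spec h1).2

theorem anc_adj {v : V} {i : ℕ} (h : Lay H r i v) (t : ℕ) (ht : t + 1 ≤ i) :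
    H.Adj ((par H r)^[t] v) ((par H r)^[t + 1] v) := by
  have h1 := anc_lay h t (by omega)
  have h2 : i - t = (i - (t + 1)) + 1 := by omega
  rw [h2] at h1
  rw [Function.iterate_succ_apply']
  exact (par_spec h1).1

theorem lay_zero {v : V} (h : Lay H r 0 v) : v = r :=
  ((h.1.dist_eq_zero_iff).1 h.2).symm

theorem anc_top {v : V} {i : ℕ} (h : Lay H r i v) : (par H r)^[i] v = r := by
  have h1 := anc_lay h i le_rfl
  rw [Nat.sub_self] at h1
  exact lay_zero h1

theorem anc_eq_mono {x y : V} {s t : ℕ} (hst : s ≤ t)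
    (h : (par H r)^[s] x = (par H r)^[s] y) : (par H r)^[t] x = (par H r)^[t] y := by
  obtain ⟨d, rfl⟩ := Nat.exists_eq_add_of_le hst
  rw [add_comm, Function.iterate_add_apply, Function.iterate_add_apply, h]

/-- Connecting paths between two vertices of a layer. -/
theorem connect {i t : ℕ} {x y : V} (hx : Lay H r i x) (hy : Lay H r i y) (ht : t + 1 ≤ i)
    (hne : (par H r)^[t] x ≠ (par H r)^[t] y)
    (he : (par H r)^[t + 1] x = (par H r)^[t + 1] y) :
    ∃ l : List V, l.length + 1 = 2 * (t + 1) ∧ Pt H x l y ∧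
      ∀ z ∈ l, ∃ j < i, Lay H r j z := by
  set p : ℕ → V := fun s => if s ≤ t + 1 then (par H r)^[s] x else (par H r)^[2 * (t + 1) - s] y
    with hp
  have hp1 : ∀ s, s ≤ t + 1 → p s = (par H r)^[s] x := fun s hs => by rw [hp]; exact if_pos hs
  have hp2 : ∀ s, t + 1 ≤ s → p s = (par H r)^[2 * (t + 1) - s] y := by
    intro s hs
    rcases hs.eq_or_lt with h | h
    · rw [hp1 s h.ge, ← h, he]
      congr 2
      omega
    · rw [hp]
      exact if_neg (by omega)
  have hl1 : ∀ s, s ≤ t + 1 → Lay H r (i - s) (p s) := by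
    intro s hs
    rw [hp1 s hs]
    exact anc_lay hx s (by omega)
  have hl2 : ∀ s, t + 1 ≤ s → s ≤ 2 * (t + 1) → Lay H r (i - (2 * (t + 1) - s)) (p s) := by
    intro s hs hs'
    rw [hp2 s hs]
    exact anc_lay hy _ (by omega)
  have hadj : ∀ s < 2 * (t + 1), H.Adj (p s) (p (s + 1)) := by
    intro s hs
    by_cases h : s + 1 ≤ t + 1
    · rw [hp1 s (by omega), hp1 (s + 1) h]
      exact anc_adj hx s (by omega)
    · rw [hp2 s (by omega), hp2 (s + 1) (by omega)]
      obtain ⟨d, hd⟩ : ∃ d, 2 * (t + 1) - s = d + 1 := ⟨2 * (t + 1) - s - 1, by omega⟩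
      have hd' : 2 * (t + 1) - (s + 1) = d := by omega
      rw [hd, hd']
      exact (anc_adj hy d (by omega)).symm
  have hinj : ∀ a ≤ 2 * (t + 1), ∀ b ≤ 2 * (t + 1), p a = p b → a = b := by
    have key : ∀ a b, a < b → b ≤ 2 * (t + 1) → p a ≠ p b := by
      intro a b hab hb heq
      by_cases h1 : b ≤ t + 1
      · have e1 := (hl1 a (by omega)).2
        have e2 := (hl1 b h1).2
        rw [heq] at e1
        omega
      · by_cases h2 : t + 1 ≤ a
        · have e1 := (hl2 a h2 (by omega)).2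
          have e2 := (hl2 b (by omega) hb).2
          rw [heq] at e1
          omega
        · have e1 := (hl1 a (by omega)).2
          have e2 := (hl2 b (by omega) hb).2
          rw [heq] at e1
          have e3 : 2 * (t + 1) - b = a := by omega
          rw [hp1 a (by omega), hp2 b (by omega), e3] at heq
          exact hne (anc_eq_mono (by omega) heq)
    intro a ha b hb heq
    rcases lt_trichotomy a b with h | h | h
    · exact absurd heq (key a b h hb)
    · exact h
    · exact absurd heq.symm (key b a h ha)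
  have hPt := pt_of_fun (G := H) (p := p) (m := 2 * (t + 1)) (by omega) hadj hinj
  have h0 : p 0 = x := by rw [hp1 0 (by omega)]; rfl
  have hm : p (2 * (t + 1)) = y := by
    rw [hp2 _ (by omega), Nat.sub_self]; rfl
  rw [h0, hm] at hPt
  refine ⟨_, ?_, hPt, ?_⟩
  · rw [List.length_map, List.length_range]; omega
  · intro z hz
    rw [List.mem_map] at hz
    obtain ⟨s, hs, rfl⟩ := hz
    rw [List.mem_range] at hs
    by_cases h : s + 1 ≤ t + 1
    · exact ⟨i - (s + 1), by omega, hl1 (s + 1) h⟩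
    · exact ⟨i - (2 * (t + 1) - (s + 1)), by omega, hl2 (s + 1) (by omega) (by omega)⟩

/-- The separating set. -/
theorem sep {i : ℕ} (S : Finset V) (hS : ∀ v ∈ S, Lay H r i v) (h2 : 2 ≤ S.card) :
    ∃ A ⊆ S, A.Nonempty ∧ A ≠ S ∧ ∃ j : ℕ, 1 ≤ j ∧
      ∀ x ∈ A, ∀ y ∈ S, y ∉ A → ∃ l : List V, l.length + 1 = 2 * j ∧ Pt H x l y ∧
        ∀ z ∈ l, ∃ j < i, Lay H r j z := by
  classical
  have hex : ∃ t, ∀ x ∈ S, ∀ y ∈ S, (par H r)^[t] x = (par H r)^[t] y :=
    ⟨i, fun x hx y hy => by rw [anc_top (hS x hx), anc_top (hS y hy)]⟩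
  set t0 := Nat.find hex with ht0
  have hspec := Nat.find_spec hex
  rw [← ht0] at hspec
  have hle : t0 ≤ i := Nat.find_min' hex
    (fun x hx y hy => by rw [anc_top (hS x hx), anc_top (hS y hy)])
  obtain ⟨a, ha, b, hb, hab⟩ := Finset.one_lt_card.1 h2
  have hpos : t0 ≠ 0 := by
    intro h
    rw [h] at hspec
    exact hab (hspec a ha b hb)
  obtain ⟨t, ht⟩ := Nat.exists_eq_succ_of_ne_zero hpos
  have hmin := Nat.find_min hex (m := t) (by rw [← ht0, ht]; exact Nat.lt_succ_self t)
  push Not at hmin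
  obtain ⟨x0, hx0, y0, hy0, hxy⟩ := hmin
  refine ⟨S.filter (fun x => (par H r)^[t] x = (par H r)^[t] x0), filter_subset _ _,
    ⟨x0, mem_filter.2 ⟨hx0, rfl⟩⟩, ?_, t + 1, by omega, ?_⟩
  · intro h
    have h1 : y0 ∈ S.filter (fun x => (par H r)^[t] x = (par H r)^[t] x0) := by rw [h]; exact hy0
    exact hxy (mem_filter.1 h1).2.symm
  · intro x hx y hy hyA
    obtain ⟨hxS, hx'⟩ := mem_filter.1 hx
    have hne : (par H r)^[t] x ≠ (par H r)^[t] y := by
      intro h
      exact hyA (mem_filter.2 ⟨hy, by rw [← h, hx']⟩)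
    have he : (par H r)^[t + 1] x = (par H r)^[t + 1] y := by
      have := hspec x hxS y hy
      rwa [ht] at this
    exact connect (hS x hxS) (hS y hy) (by omega) hne he

end

/-- The sides of the vertices of a walk. -/
theorem walk_side {V : Type} {G : SimpleGraph V} {X Y : Finset V} (hXY : ∀ v ∈ X, v ∉ Y)
    {u v : V} (w : (bip G X Y).Walk u v) :
    (Even w.length → (u ∈ X → v ∈ X) ∧ (u ∈ Y → v ∈ Y)) ∧
      (¬ Even w.length → (u ∈ X → v ∈ Y) ∧ (u ∈ Y → v ∈ X)) := by
  induction w with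
  | nil => simp
  | cons h q ih =>
    rw [SimpleGraph.Walk.length_cons, Nat.even_add_one, not_not]
    obtain ⟨i1, i2⟩ := ih
    constructor
    · intro hq
      obtain ⟨j1, j2⟩ := i2 hq
      refine ⟨fun hu => ?_, fun hu => ?_⟩
      · rcases h.2 with h1 | h1
        · exact j2 h1.2
        · exact absurd h1.1 (hXY _ hu)
      · rcases h.2 with h1 | h1
        · exact absurd hu (hXY _ h1.1)
        · exact j1 h1.2
    · intro hq
      obtain ⟨j1, j2⟩ := i1 hq
      refine ⟨fun hu => ?_, fun hu => ?_⟩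
      · rcases h.2 with h1 | h1
        · exact j2 h1.2
        · exact absurd h1.1 (hXY _ hu)
      · rcases h.2 with h1 | h1
        · exact absurd hu (hXY _ h1.1)
        · exact j1 h1.2

theorem lay_side {V : Type} {G : SimpleGraph V} {X Y : Finset V} (hXY : ∀ v ∈ X, v ∉ Y)
    {r : V} (hr : r ∈ X ∨ r ∈ Y) (i : ℕ) :
    ((∀ v, Lay (bip G X Y) r i v → v ∈ X) ∧ (∀ v, Lay (bip G X Y) r (i + 1) v → v ∈ Y)) ∨
    ((∀ v, Lay (bip G X Y) r i v → v ∈ Y) ∧ (∀ v, Lay (bip G X Y) r (i + 1) v → v ∈ X)) := by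
  have hw : ∀ j v, Lay (bip G X Y) r j v → ∃ w : (bip G X Y).Walk r v, w.length = j := by
    intro j v h
    obtain ⟨w, hw⟩ := h.1.exists_walk_length_eq_dist
    exact ⟨w, hw.trans h.2⟩
  by_cases he : Even i
  · have he' : ¬ Even (i + 1) := by rw [Nat.even_add_one, not_not]; exact he
    rcases hr with hr | hr
    · left
      constructor
      · intro v h
        obtain ⟨w, hw⟩ := hw i v h
        exact ((walk_side hXY w).1 (by rw [hw]; exact he)).1 hr
      · intro v h
        obtain ⟨w, hw⟩ := hw (i + 1) v h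
        exact ((walk_side hXY w).2 (by rw [hw]; exact he')).1 hr
    · right
      constructor
      · intro v h
        obtain ⟨w, hw⟩ := hw i v h
        exact ((walk_side hXY w).1 (by rw [hw]; exact he)).2 hr
      · intro v h
        obtain ⟨w, hw⟩ := hw (i + 1) v h
        exact ((walk_side hXY w).2 (by rw [hw]; exact he')).2 hr
  · have he' : Even (i + 1) := by rw [Nat.even_add_one]; exact he
    rcases hr with hr | hr
    · right
      constructor
      · intro v h
        obtain ⟨w, hw⟩ := hw i v h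
        exact ((walk_side hXY w).2 (by rw [hw]; exact he)).1 hr
      · intro v h
        obtain ⟨w, hw⟩ := hw (i + 1) v h
        exact ((walk_side hXY w).1 (by rw [hw]; exact he')).1 hr
    · left
      constructor
      · intro v h
        obtain ⟨w, hw⟩ := hw i v h
        exact ((walk_side hXY w).2 (by rw [hw]; exact he)).2 hr
      · intro v h
        obtain ⟨w, hw⟩ := hw (i + 1) v h
        exact ((walk_side hXY w).1 (by rw [hw]; exact he')).2 hr

theorem closed_reach {V : Type} {H : SimpleGraph V} {C : Finset V}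
    (hC : ∀ x ∈ C, ∀ y, H.Adj x y → y ∈ C) {u v : V} (w : H.Walk u v) (hu : u ∈ C) : v ∈ C := by
  induction w with
  | nil => exact hu
  | cons h q ih => exact ih (hC _ hu _ h)

open scoped Classical in
/-- A component with many edges. -/
theorem exists_root {V : Type} [Fintype V] (G : SimpleGraph V) (X Y : Finset V) (D : ℕ) :
    ∀ (n : ℕ) (C : Finset V), C.card = n →
      (∀ x ∈ C, ∀ y, (bip G X Y).Adj x y → y ∈ C) →
      2 * D * C.card < ee G (C ∩ X) (C ∩ Y) →
      ∃ r, (r ∈ X ∨ r ∈ Y) ∧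
        2 * D * (univ.filter (fun v => (bip G X Y).Reachable r v)).card <
          ee G (univ.filter (fun v => (bip G X Y).Reachable r v) ∩ X)
            (univ.filter (fun v => (bip G X Y).Reachable r v) ∩ Y) := by
  intro n
  induction n using Nat.strong_induction_on with
  | _ n ih =>
  intro C hCn hC hee
  obtain ⟨a, ha, b, hb, hab⟩ := exists_adj_of_ee_pos (lt_of_le_of_lt (Nat.zero_le _) hee)
  rw [mem_inter] at ha hb
  set R := univ.filter (fun v => (bip G X Y).Reachable a v) with hR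
  have hRC : R ⊆ C := by
    intro v hv
    obtain ⟨w⟩ := (mem_filter.1 hv).2
    exact closed_reach hC w ha.1
  by_cases h1 : 2 * D * R.card < ee G (R ∩ X) (R ∩ Y)
  · exact ⟨a, Or.inl ha.2, h1⟩
  · push Not at h1
    have hmemR : ∀ v, v ∈ R ↔ (bip G X Y).Reachable a v := by
      intro v; rw [hR, mem_filter]; simp
    have hedge : ∀ x y, (bip G X Y).Adj x y → (x ∈ R ↔ y ∈ R) := by
      intro x y h
      rw [hmemR, hmemR]
      exact ⟨fun h' => h'.trans h.reachable, fun h' => h'.trans h.symm.reachable⟩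
    have hadd : ee G (C ∩ X) (C ∩ Y) ≤
        ee G (R ∩ X) (R ∩ Y) + ee G ((C \ R) ∩ X) ((C \ R) ∩ Y) := by
      rw [ee_eq_card, ee_eq_card, ee_eq_card]
      refine le_trans (card_le_card ?_) (card_union_le _ _)
      rintro ⟨x, y⟩ hxy
      simp only [mem_filter, mem_product, mem_inter, mem_union, mem_sdiff] at hxy ⊢
      obtain ⟨⟨⟨h2, h3⟩, h4, h5⟩, h6⟩ := hxy
      have h7 := hedge x y ⟨h6, Or.inl ⟨h3, h5⟩⟩
      by_cases h8 : x ∈ R
      · exact Or.inl ⟨⟨⟨h8, h3⟩, h7.1 h8, h5⟩, h6⟩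
      · exact Or.inr ⟨⟨⟨⟨h2, h8⟩, h3⟩, ⟨h4, fun h9 => h8 (h7.2 h9)⟩, h5⟩, h6⟩
    have hcard : (C \ R).card + R.card = C.card := card_sdiff_add_card_eq_card hRC
    have haR : a ∈ R := (hmemR a).2 (SimpleGraph.Reachable.refl a)
    have hRpos : 0 < R.card := card_pos.2 ⟨a, haR⟩
    refine ih (C \ R).card (by omega) (C \ R) rfl ?_ ?_
    · intro x hx y hxy
      rw [mem_sdiff] at hx ⊢
      exact ⟨hC x hx.1 y hxy, fun h => hx.2 ((hedge x y hxy).2 h)⟩
    · have h2 : 2 * D * C.card = 2 * D * (C \ R).card + 2 * D * R.card := by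
        rw [← hcard]; ring
      omega

theorem pf_BFS : T_BFS := by
  classical
  intro V _ G X Y D hXY hD hee
  set H := bip G X Y with hH
  obtain ⟨r, hr, hR⟩ := exists_root G X Y D (X ∪ Y).card (X ∪ Y) rfl
    (by
      intro x _ y h
      rcases h.2 with h1 | h1
      · exact mem_union_right _ h1.2
      · exact mem_union_left _ h1.2)
    (by
      have h1 : (X ∪ Y).card ≤ X.card + Y.card := card_union_le _ _
      have h2 : (X ∪ Y) ∩ X = X := inter_eq_right.2 subset_union_left
      have h3 : (X ∪ Y) ∩ Y = Y := inter_eq_right.2 subset_union_right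
      rw [h2, h3]
      exact lt_of_le_of_lt (Nat.mul_le_mul_left _ h1) hee)
  rw [← hH] at hR
  set R := univ.filter (fun v => H.Reachable r v) with hRdef
  set L : ℕ → Finset V := fun i => univ.filter (fun v => Lay H r i v) with hL
  have hmemL : ∀ i v, v ∈ L i ↔ Lay H r i v := by
    intro i v; rw [hL]; simp
  have hmemR : ∀ v, v ∈ R ↔ H.Reachable r v := by
    intro v; rw [hRdef]; simp
  set n := Fintype.card V with hn
  have hsumL : ∀ m, ∑ i ∈ range m, (L i).card ≤ R.card := by
    intro m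
    rw [← card_biUnion]
    · refine card_le_card ?_
      intro v hv
      obtain ⟨i, _, hi⟩ := mem_biUnion.1 hv
      exact (hmemR v).2 ((hmemL i v).1 hi).1
    · intro i _ j _ hij
      rw [Function.onFun, disjoint_left]
      intro v hv hv'
      exact hij (((hmemL i v).1 hv).2.symm.trans ((hmemL j v).1 hv').2)
  -- the edges between consecutive layers
  have hedges : ee G (R ∩ X) (R ∩ Y) ≤ ∑ i ∈ range n, ee G (L i) (L (i + 1)) := by
    rw [ee_eq_card]
    set E := ((R ∩ X) ×ˢ (R ∩ Y)).filter (fun p => G.Adj p.1 p.2) with hE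
    have hmaps : ∀ p ∈ E, min (H.dist r p.1) (H.dist r p.2) ∈ range n := by
      intro p hp
      rw [hE, mem_filter, mem_product, mem_inter, mem_inter] at hp
      rw [mem_range]
      exact lt_of_le_of_lt (min_le_left _ _) (dist_lt_card ((hmemR _).1 hp.1.1.1))
    rw [card_eq_sum_card_fiberwise hmaps]
    refine sum_le_sum fun i _ => ?_
    have hkey : ∀ p ∈ E.filter (fun p => min (H.dist r p.1) (H.dist r p.2) = i),
        H.Reachable r p.1 ∧ H.Reachable r p.2 ∧ p.1 ∈ X ∧ p.2 ∈ Y ∧ G.Adj p.1 p.2 ∧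
        min (H.dist r p.1) (H.dist r p.2) = i ∧ H.dist r p.1 ≤ H.dist r p.2 + 1 ∧
        H.dist r p.2 ≤ H.dist r p.1 + 1 := by
      intro p hp
      rw [mem_filter, hE, mem_filter, mem_product, mem_inter, mem_inter] at hp
      obtain ⟨⟨⟨⟨h1, h2⟩, h3, h4⟩, h5⟩, h6⟩ := hp
      have h7 : H.Adj p.1 p.2 := ⟨h5, Or.inl ⟨h2, h4⟩⟩
      exact ⟨(hmemR _).1 h1, (hmemR _).1 h3, h2, h4, h5, h6,
        dist_succ_le ((hmemR _).1 h3) h7.symm, dist_succ_le ((hmemR _).1 h1) h7⟩
    rcases lay_side (G := G) hXY hr i with ⟨s1, s2⟩ | ⟨s1, s2⟩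
    · rw [ee_eq_card]
      refine card_le_card ?_
      intro p hp
      obtain ⟨h1, h2, h3, h4, h5, h6, h7, h8⟩ := hkey p hp
      rw [mem_filter, mem_product, hmemL, hmemL]
      have h9 : H.dist r p.2 ≠ i := fun h => hXY _ (s1 p.2 ⟨h2, h⟩) h4
      refine ⟨⟨⟨h1, ?_⟩, ⟨h2, ?_⟩⟩, h5⟩ <;> omega
    · rw [ee_comm, ee_eq_card]
      refine card_le_card ?_
      intro p hp
      obtain ⟨h1, h2, h3, h4, h5, h6, h7, h8⟩ := hkey p hp
      rw [mem_filter, mem_product, hmemL, hmemL]
      have h9 : H.dist r p.1 ≠ i := fun h => hXY _ h3 (s1 p.1 ⟨h1, h⟩)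
      refine ⟨⟨⟨h1, ?_⟩, ⟨h2, ?_⟩⟩, h5⟩ <;> omega
  obtain ⟨i, hi⟩ : ∃ i, D * ((L i).card + (L (i + 1)).card) < ee G (L i) (L (i + 1)) := by
    by_contra hcon
    push Not at hcon
    have h1 : ee G (R ∩ X) (R ∩ Y) ≤ ∑ i ∈ range n, D * ((L i).card + (L (i + 1)).card) :=
      hedges.trans (sum_le_sum fun i _ => hcon i)
    rw [← mul_sum, sum_add_distrib] at h1
    have h2 := hsumL n
    have h3 := hsumL (n + 1)
    rw [sum_range_succ'] at h3
    have h4 : D * (∑ i ∈ range n, (L i).card + ∑ i ∈ range n, (L (i + 1)).card) ≤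
        D * (R.card + R.card) := Nat.mul_le_mul_left _ (by omega)
    have h5 : D * (R.card + R.card) = 2 * D * R.card := by ring
    omega
  refine ⟨L i, L (i + 1), ?_, hi, ?_⟩
  · rcases lay_side (G := G) hXY hr i with ⟨s1, s2⟩ | ⟨s1, s2⟩
    · exact Or.inl ⟨fun v hv => s1 v ((hmemL _ _).1 hv), fun v hv => s2 v ((hmemL _ _).1 hv)⟩
    · exact Or.inr ⟨fun v hv => s1 v ((hmemL _ _).1 hv), fun v hv => s2 v ((hmemL _ _).1 hv)⟩
  · intro S hS hS2
    obtain ⟨A, hA, hne, hAS, j, hj, hconn⟩ :=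
      sep S (fun v hv => (hmemL i v).1 (hS hv)) hS2
    refine ⟨A, hA, hne, hAS, j, hj, fun x hx y hy hyA => ?_⟩
    obtain ⟨l, hl, hPt, hz⟩ := hconn x hx y hy hyA
    refine ⟨l, hl, ⟨hPt.1, hPt.2.imp fun _ _ h => h.1⟩, fun z hzl => ?_⟩
    obtain ⟨j', hj', hlay⟩ := hz z hzl
    rw [hmemL, hmemL]
    constructor
    · intro h
      have := h.2.symm.trans hlay.2
      omega
    · intro h
      have := h.2.symm.trans hlay.2
      omega

end Pool.Agent.H14.VR
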