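import Pool.Agent.H30.VR.Targets

/-!
# MP_d32443_co, board ver_modules: row DEN
-/

set_option autoImplicit false

namespace Pool.Agent.H14.VR

open Finset Pool.Agent.H48.CE Pool.Agent.H30.VR

theorem bip_mono {V : Type} {G : SimpleGraph V} {P Q P' Q' : Finset V} (hP : P' ⊆ P)
    (hQ : Q' ⊆ Q) {u v : V} (h : (bip G P' Q').Adj u v) : (bip G P Q).Adj u v := by
  obtain ⟨h1, h2⟩ := h
  exact ⟨h1, h2.imp (fun h => ⟨hP h.1, hQ h.2⟩) (fun h => ⟨hQ h.1, hP h.2⟩)⟩

theorem pf_DEN (hBFS : T_BFS) (hMIN : T_MIN) (hPOS : T_POS) (hRUN : T_RUN) (hPAR : T_PAR) :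
    Pool.Agent.H30.VR.T_DEN := by
  classical
  intro V _ G X Y k D N hrun hXY hD hN hee
  obtain ⟨P, Q, hside, hPQ, hS⟩ := hBFS G X Y D hXY (by omega) hee
  obtain ⟨P', hP', Q', hQ', hne, hdP, hdQ⟩ := hMIN G P Q D hPQ
  have hdisPQ : ∀ v ∈ P, v ∉ Q := by
    intro v hvP hvQ
    rcases hside with ⟨h1, h2⟩ | ⟨h1, h2⟩
    · exact hXY v (h1 hvP) (h2 hvQ)
    · exact hXY v (h2 hvQ) (h1 hvP)
  have hdis : ∀ v ∈ P', v ∉ Q' := fun v h1 h2 => hdisPQ v (hP' h1) (hQ' h2)
  set H := bip G P' Q' with hH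
  set Z := P' ∪ Q' with hZ
  have hadj : ∀ u v, H.Adj u v ↔ G.Adj u v ∧ ((u ∈ P' ∧ v ∈ Q') ∨ (u ∈ Q' ∧ v ∈ P')) :=
    fun u v => Iff.rfl
  have hnbP : ∀ x ∈ P', nb H Z x = nb G Q' x := by
    intro x hx
    ext w
    rw [mem_nb, mem_nb, hadj]
    constructor
    · rintro ⟨_, h1, h2 | h2⟩
      · exact ⟨h2.2, h1⟩
      · exact absurd h2.1 (hdis x hx)
    · rintro ⟨h1, h2⟩
      exact ⟨mem_union_right _ h1, h2, Or.inl ⟨hx, h1⟩⟩
  have hnbQ : ∀ x ∈ Q', nb H Z x = nb G P' x := by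
    intro x hx
    ext w
    rw [mem_nb, mem_nb, hadj]
    constructor
    · rintro ⟨_, h1, h2 | h2⟩
      · exact absurd hx (hdis x h2.1)
      · exact ⟨h2.2, h1⟩
    · rintro ⟨h1, h2⟩
      exact ⟨mem_union_left _ h1, h2, Or.inr ⟨hx, h1⟩⟩
  have hnb : ∀ x ∈ Z, D < (nb H Z x).card := by
    intro x hx
    rcases mem_union.1 hx with h | h
    · rw [hnbP x h]; exact hdP x h
    · rw [hnbQ x h]; exact hdQ x h
  have hcl : ∀ x y, H.Adj x y → y ∈ Z := by
    intro x y h
    rcases ((hadj x y).1 h).2 with h1 | h1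
    · exact mem_union_right _ h1.2
    · exact mem_union_left _ h1.2
  have hcol : ∀ u v, H.Adj u v → decide (u ∈ P') ≠ decide (v ∈ P') := by
    intro u v h
    rcases ((hadj u v).1 h).2 with h1 | h1
    · have h2 : v ∉ P' := fun h2 => hdis v h2 h1.2
      simp [h1.1, h2]
    · have h2 : u ∉ P' := fun h2 => hdis u h2 h1.1
      simp [h1.2, h2]
  obtain ⟨n, c, r, U, hChd, hUne, hU1, hU2, hU3, hU4⟩ := hPOS H Z (fun v => decide (v ∈ P'))
    (hne.mono subset_union_left) hcol (fun x hx => by have := hnb x hx; omega)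
    (fun x _ y h => hcl x y h)
  set W := univ.filter (fun x => ∃ u ∈ U, H.Adj u x) with hW
  have hn : n ≤ 2 * k + 1 := by
    by_contra hcon
    push Not at hcon
    apply hrun
    refine hRUN G P Q k n c r hdisPQ ?_ (by omega) hS
    exact ⟨hChd.four, hChd.inj, fun i => bip_mono hP' hQ' (hChd.adj i),
      bip_mono hP' hQ' hChd.chord, hChd.ne_one, hChd.ne_neg⟩
  have hn4 := hChd.four
  have : NeZero n := ⟨by omega⟩
  have hUk : U.card ≤ k := by
    choose! pos hpos using fun u (hu : u ∈ U) => (hU1 u hu).2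
    have hinj : Set.InjOn (fun u => c (pos u + 1)) U := by
      intro u hu v hv huv
      have h1 := hChd.inj huv
      have h2 : pos u = pos v := add_right_cancel h1
      rw [hpos u hu, hpos v hv, h2]
    have hdisj : Disjoint U (U.image (fun u => c (pos u + 1))) := by
      rw [disjoint_left]
      intro v hv hv'
      obtain ⟨u, hu, rfl⟩ := mem_image.1 hv'
      have h1 := hcol _ _ (hChd.adj (pos u))
      apply h1
      rw [← hpos u hu]
      exact hU3 u hu _ hv
    have h3 : (U ∪ U.image (fun u => c (pos u + 1))).card ≤ (univ.image c).card := by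
      apply card_le_card
      intro v hv
      rcases mem_union.1 hv with h | h
      · rw [hpos v h]; exact mem_image_of_mem _ (mem_univ _)
      · obtain ⟨u, _, rfl⟩ := mem_image.1 h
        exact mem_image_of_mem _ (mem_univ _)
    rw [card_union_of_disjoint hdisj, card_image_of_injOn hinj,
      card_image_of_injective _ hChd.inj, card_univ, ZMod.card] at h3
    omega
  have hWk : W.card ≤ 2 * k := by omega
  have hdeg : ∀ u ∈ U, D < (nb G W u).card := by
    intro u hu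
    refine (hnb u (hU1 u hu).1).trans_le (card_le_card ?_)
    intro w hw
    rw [mem_nb] at hw ⊢
    exact ⟨mem_filter.2 ⟨mem_univ _, u, hu, hw.2⟩, ((hadj u w).1 hw.2).1⟩
  obtain ⟨u0, hu0⟩ := hUne
  have h5 := hdeg u0 hu0
  have h6 : (nb G W u0).card ≤ W.card := card_le_card (nb_subset W u0)
  obtain ⟨A, hA, B, hB, hAc, hBc, hAB⟩ := hPAR G U W k D N hWk (fun u hu => (hdeg u hu).le)
    (by omega) (by omega)
  -- the sides
  have hsides : (U ⊆ P' ∧ W ⊆ Q') ∨ (U ⊆ Q' ∧ W ⊆ P') := by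
    by_cases h0 : u0 ∈ P'
    · left
      have hUP : U ⊆ P' := by
        intro u hu
        have h7 := hU3 u0 hu0 u hu
        simpa [h0] using h7
      refine ⟨hUP, fun w hw => ?_⟩
      obtain ⟨u, hu, h8⟩ := (mem_filter.1 hw).2
      rcases ((hadj u w).1 h8).2 with h9 | h9
      · exact h9.2
      · exact absurd h9.1 (hdis u (hUP hu))
    · right
      have hUQ : U ⊆ Q' := by
        intro u hu
        have h7 := hU3 u0 hu0 u hu
        have h8 : u ∉ P' := by simpa [h0] using h7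
        rcases mem_union.1 (hU1 u hu).1 with h9 | h9
        · exact absurd h9 h8
        · exact h9
      refine ⟨hUQ, fun w hw => ?_⟩
      obtain ⟨u, hu, h8⟩ := (mem_filter.1 hw).2
      rcases ((hadj u w).1 h8).2 with h9 | h9
      · exact absurd (hUQ hu) (hdis u h9.1)
      · exact h9.2
  rcases hside with ⟨h1, h2⟩ | ⟨h1, h2⟩ <;> rcases hsides with ⟨h3, h4⟩ | ⟨h3, h4⟩
  · exact ⟨A, (hA.trans h3).trans (hP'.trans h1), B, (hB.trans h4).trans (hQ'.trans h2), hAc, hBc,
      hAB⟩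
  · exact ⟨B, (hB.trans h4).trans (hP'.trans h1), A, (hA.trans h3).trans (hQ'.trans h2), hBc, hAc,
      by rw [ee_comm]; exact hAB⟩
  · exact ⟨B, (hB.trans h4).trans (hQ'.trans h2), A, (hA.trans h3).trans (hP'.trans h1), hBc, hAc,
      by rw [ee_comm]; exact hAB⟩
  · exact ⟨A, (hA.trans h3).trans (hQ'.trans h2), B, (hB.trans h4).trans (hP'.trans h1), hAc, hBc,
      hAB⟩

end Pool.Agent.H14.VR
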